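import Pool.Agent.Helper205_Exc.Final

/-!
# The exceptions to Oesterlé's inequality with a large exponent

For every `ε > 0` there is an exponent `M` such that for all `A` the number of abc triples with
`rad (abc) ≤ X`, `rad (abc) ^ M ≤ c ≤ X ^ A`, one of whose members has radical at most `Y`, is at
most `C X ^ ε min ((X Y) ^ (1/4), X ^ (1/3))`. For `Y ^ 3 ≥ X` these are all exceptions of height
`≤ X ^ A` to the inequality `c < rad (abc) ^ M`; for `Y = 1` they are the pairs of consecutive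
integers.

Call a member flexible if its part made of the primes `≤ X ^ δ` with exponent at least `E` is at
least `X ^ B`. A flexible member has a divisor `r ^ E ≥ X ^ (B / 2)` with `r ≤ X ^ ε`, and the two
other members are proportional modulo `r ^ E`; by the bound for the multiplicative energy of the set
of the integers with radical `≤ R` modulo `r ^ E` there are at most `(R' R'') ^ (1/2)` such pairs.
A member which is not flexible is a product of powers of boundedly many integers `≤ X ^ z`; two such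
numbers, or one such number and a given one, are proportional modulo `r ^ E` at most `X ^ ε` times
by the determinant method if `E` is large in terms of `δ`, `B` and `z`, and three such numbers form
at most `X ^ ε` triples with `c ≥ X ^ M`. Five levels of `(δ, E, B)` are used.
-/

set_option autoImplicit false

namespace Pool.Agent.Results.MP_2ec8a3_nt.ExceptionsLargeExponent

/-- the radical of `n` -/
def rad (n : ℕ) : ℕ := ∏ p ∈ n.primeFactors, p

/-- the abc triples `(a, b, c)` of height `c ≤ X ^ A` with `rad (abc) ≤ X` which violate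
`c < rad (abc) ^ M` and have a member with radical at most `Y` -/
def Exceptions (M A X Y : ℕ) : Set (ℕ × ℕ × ℕ) :=
  {t | 0 < t.1 ∧ 0 < t.2.1 ∧ t.1 + t.2.1 = t.2.2 ∧ Nat.Coprime t.1 t.2.1 ∧
    rad (t.1 * t.2.1 * t.2.2) ≤ X ∧ rad (t.1 * t.2.1 * t.2.2) ^ M ≤ t.2.2 ∧ t.2.2 ≤ X ^ A ∧
    (rad t.1 ≤ Y ∨ rad t.2.1 ≤ Y ∨ rad t.2.2 ≤ Y)}

theorem result (ε : ℝ) (hε : 0 < ε) : ∃ M : ℕ, ∀ A : ℕ, ∃ C : ℝ, ∀ X Y : ℕ, 1 ≤ X → 1 ≤ Y →
    (Exceptions M A X Y).Finite ∧ ((Exceptions M A X Y).ncard : ℝ) ≤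
      C * (X : ℝ) ^ ε * min (((X : ℝ) * Y) ^ ((1 : ℝ) / 4)) ((X : ℝ) ^ ((1 : ℝ) / 3)) := by
  classical
  obtain ⟨M, hM⟩ := Pool.Agent.Helper205_Exc.final ε hε
  refine ⟨M, ?_⟩
  intro A
  obtain ⟨C, hC, hfin⟩ := hM A
  refine ⟨C, ?_⟩
  intro X Y hX hY
  obtain ⟨T, hT⟩ : ∃ T : Finset (ℕ × ℕ), T = ((Finset.range (X ^ A + 1)) ×ˢ
    (Finset.range (X ^ A + 1))).filter fun t => (t.1, t.2, t.1 + t.2) ∈ Exceptions M A X Y :=
    ⟨_, rfl⟩
  have hsub : Exceptions M A X Y ⊆ ↑(T.image fun t : ℕ × ℕ => (t.1, t.2, t.1 + t.2)) := by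
    rintro ⟨a, b, c⟩ ht
    have ht' := ht
    obtain ⟨h1, h2, h3, h4, h5, h6, h7, h8⟩ := ht'
    simp only at h3 h7
    rw [Finset.mem_coe, Finset.mem_image]
    refine ⟨(a, b), ?_, by simp [h3]⟩
    rw [hT, Finset.mem_filter, Finset.mem_product, Finset.mem_range, Finset.mem_range]
    refine ⟨⟨?_, ?_⟩, ?_⟩
    · show a < X ^ A + 1
      omega
    · show b < X ^ A + 1
      omega
    · show (a, b, a + b) ∈ Exceptions M A X Y
      rw [h3]
      exact ht
  refine ⟨(Finset.finite_toSet _).subset hsub, ?_⟩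
  have h1 : (Exceptions M A X Y).ncard ≤ T.card := by
    calc (Exceptions M A X Y).ncard
        ≤ (↑(T.image fun t : ℕ × ℕ => (t.1, t.2, t.1 + t.2)) : Set (ℕ × ℕ × ℕ)).ncard :=
          Set.ncard_le_ncard hsub (Finset.finite_toSet _)
      _ = (T.image fun t : ℕ × ℕ => (t.1, t.2, t.1 + t.2)).card := Set.ncard_coe_finset _
      _ ≤ T.card := Finset.card_image_le
  refine le_trans (by exact_mod_cast h1) (hfin X Y hX hY T ?_)
  intro t ht
  rw [hT, Finset.mem_filter] at ht
  obtain ⟨g1, g2, g3, g4, g5, g6, g7, g8⟩ := ht.2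
  refine ⟨⟨g1, g2, g4⟩, g5, g6, g7, ?_⟩
  rcases g8 with h | h | h
  · exact ⟨0, h⟩
  · exact ⟨1, h⟩
  · exact ⟨2, h⟩

end Pool.Agent.Results.MP_2ec8a3_nt.ExceptionsLargeExponent
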