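import Pool.Agent.Helper205_Exc.SmoothFin

/-!
# Exceptions to Oesterlé's inequality with few high powers of small primes

For all `E`, `δ > 0` and `ε > 0` there is an exponent `M` such that for every `A` the number of abc
triples with `rad (abc) ≤ X`, `rad (abc) ^ M ≤ c ≤ X ^ A`, for which the product of the primes
`p ≤ X ^ δ` with `p ^ E ∣ abc` is at most `Y`, is at most `C X ^ ε Y ^ (2/3)`. In particular at most
`C X ^ ε` of the exceptions have no prime `p ≤ X ^ δ` with `p ^ E ∣ abc`, and apart from `C X ^ ε` of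
them the exceptions have a divisor of `rad (abc)` of size `X ^ ε` all of whose primes are `≤ X ^ δ`
and divide `abc` with multiplicity at least `E`.

Every member is `h u`, where `h` is the part made of the primes `p ≤ X ^ δ` with exponent at least
`E`, and `u` is a product of powers of at most `1 + 1 / δ` integers `≤ X ^ E`. For two members the
product of the radicals of their parts `h` is at most `Y ^ (2/3)`, so there are at most
`X ^ ε Y ^ (2/3)` pairs of such parts. For a given pair there are at most `X ^ ε` triples, by the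
theorem on triples with two members `a u`, `b v` with given coefficients `a`, `b`.
-/

set_option autoImplicit false

namespace Pool.Agent.Results.MP_2ec8a3_nt.FewHighPowersOfSmallPrimes

/-- the radical of `n` -/
def rad (n : ℕ) : ℕ := ∏ p ∈ n.primeFactors, p

/-- the product of the primes `p ≤ y` for which `p ^ E` divides `n` -/
noncomputable def highPart (y : ℝ) (E n : ℕ) : ℕ :=
  ∏ p ∈ n.primeFactors.filter (fun p : ℕ => (p : ℝ) ≤ y ∧ p ^ E ∣ n), p

/-- the abc triples `(a, b, c)` of height `c ≤ X ^ A` with `rad (abc) ≤ X` which violate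
`c < rad (abc) ^ M` and for which the product of the primes `p ≤ X ^ δ` with `p ^ E ∣ abc` is at
most `Y` -/
def Exceptions (M A E : ℕ) (δ : ℝ) (X Y : ℕ) : Set (ℕ × ℕ × ℕ) :=
  {t | 0 < t.1 ∧ 0 < t.2.1 ∧ t.1 + t.2.1 = t.2.2 ∧ Nat.Coprime t.1 t.2.1 ∧
    rad (t.1 * t.2.1 * t.2.2) ≤ X ∧ rad (t.1 * t.2.1 * t.2.2) ^ M ≤ t.2.2 ∧ t.2.2 ≤ X ^ A ∧
    highPart ((X : ℝ) ^ δ) E (t.1 * t.2.1 * t.2.2) ≤ Y}

open Finset Pool.Agent.Helper205_Exc

/-- the product of the parts of the members -/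
lemma prod_fl {y : ℝ} {E a b c : ℕ} (ha : 0 < a) (hb : 0 < b) (hc : 0 < c)
    (hab : Nat.Coprime a b) (hac : Nat.Coprime a c) (hbc : Nat.Coprime b c) :
    fl y (max E 1) a * fl y (max E 1) b * fl y (max E 1) c ≤ highPart y E (a * b * c) := by
  classical
  obtain ⟨S, hS⟩ : ∃ S : ℕ → Finset ℕ, S = fun n => n.primeFactors.filter
    (fun p : ℕ => (p : ℝ) ≤ y ∧ max E 1 ≤ n.factorization p) := ⟨_, rfl⟩
  have hfl : ∀ n, fl y (max E 1) n = ∏ p ∈ S n, p := fun n => by rw [hS]; rfl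
  have hsub : ∀ n, S n ⊆ n.primeFactors := fun n => by rw [hS]; exact filter_subset _ _
  have hdis : ∀ {m n : ℕ}, Nat.Coprime m n → Disjoint (S m) (S n) := fun {m n} h =>
    Finset.disjoint_of_subset_left (hsub m) (Finset.disjoint_of_subset_right (hsub n)
      h.disjoint_primeFactors)
  have hdis2 : Disjoint (S a ∪ S b) (S c) := by
    rw [Finset.disjoint_union_left]
    exact ⟨hdis hac, hdis hbc⟩
  rw [hfl, hfl, hfl, ← Finset.prod_union (hdis hab), ← Finset.prod_union hdis2]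
  unfold highPart
  have hN : a * b * c ≠ 0 := by positivity
  have key : ∀ n, 0 < n → n ∣ a * b * c → S n ⊆ (a * b * c).primeFactors.filter
      (fun p : ℕ => (p : ℝ) ≤ y ∧ p ^ E ∣ a * b * c) := by
    intro n hn hd p hp
    rw [hS, mem_filter] at hp
    obtain ⟨h1, h2, h3⟩ := hp
    have hpp := Nat.prime_of_mem_primeFactors h1
    rw [mem_filter]
    refine ⟨Nat.primeFactors_mono hd hN h1, h2, ?_⟩
    refine dvd_trans ?_ hd
    rw [hpp.pow_dvd_iff_le_factorization hn.ne']
    exact (le_max_left _ _).trans h3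
  apply Finset.prod_le_prod_of_subset_of_one_le'
  · intro p hp
    rw [mem_union, mem_union] at hp
    rcases hp with (hp | hp) | hp
    · exact key a ha ⟨b * c, by ring⟩ hp
    · exact key b hb ⟨a * c, by ring⟩ hp
    · exact key c hc ⟨a * b, by ring⟩ hp
  · intro p hp _
    exact (Nat.prime_of_mem_primeFactors (mem_filter.mp hp).1).pos

theorem result (E : ℕ) (δ ε : ℝ) (hδ : 0 < δ) (hε : 0 < ε) : ∃ M : ℕ, ∀ A : ℕ, ∃ C : ℝ,
    ∀ X Y : ℕ, 1 ≤ X → 1 ≤ Y → (Exceptions M A E δ X Y).Finite ∧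
      ((Exceptions M A E δ X Y).ncard : ℝ) ≤ C * (X : ℝ) ^ ε * (Y : ℝ) ^ ((2 : ℝ) / 3) := by
  classical
  obtain ⟨M, hM⟩ := smooth_final δ ε hδ hε (max E 1) (le_max_right _ _)
  refine ⟨M, ?_⟩
  intro A
  obtain ⟨C, hC, hfin⟩ := hM A
  refine ⟨C, ?_⟩
  intro X Y hX hY
  obtain ⟨T, hT⟩ : ∃ T : Finset (ℕ × ℕ), T = ((Finset.range (X ^ A + 1)) ×ˢ
    (Finset.range (X ^ A + 1))).filter fun t => (t.1, t.2, t.1 + t.2) ∈ Exceptions M A E δ X Y :=
    ⟨_, rfl⟩
  have hsub : Exceptions M A E δ X Y ⊆ ↑(T.image fun t : ℕ × ℕ => (t.1, t.2, t.1 + t.2)) := by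
    rintro ⟨a, b, c⟩ ht
    have ht' := ht
    obtain ⟨h1, h2, h3, h4, h5, h6, h7, h8⟩ := ht'
    simp only at h3 h7
    rw [Finset.mem_coe, Finset.mem_image]
    refine ⟨(a, b), ?_, by simp [h3]⟩
    rw [hT, Finset.mem_filter, Finset.mem_product, Finset.mem_range, Finset.mem_range]
    refine ⟨⟨?_, ?_⟩, ?_⟩
    · show a < X ^ A + 1
      omega
    · show b < X ^ A + 1
      omega
    · show (a, b, a + b) ∈ Exceptions M A E δ X Y
      rw [h3]
      exact ht
  refine ⟨(Finset.finite_toSet _).subset hsub, ?_⟩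
  have h1 : (Exceptions M A E δ X Y).ncard ≤ T.card := by
    calc (Exceptions M A E δ X Y).ncard
        ≤ (↑(T.image fun t : ℕ × ℕ => (t.1, t.2, t.1 + t.2)) : Set (ℕ × ℕ × ℕ)).ncard :=
          Set.ncard_le_ncard hsub (Finset.finite_toSet _)
      _ = (T.image fun t : ℕ × ℕ => (t.1, t.2, t.1 + t.2)).card := Set.ncard_coe_finset _
      _ ≤ T.card := Finset.card_image_le
  refine le_trans (by exact_mod_cast h1) (hfin X Y hX hY T ?_)
  intro t ht
  rw [hT, Finset.mem_filter] at ht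
  obtain ⟨g1, g2, g3, g4, g5, g6, g7, g8⟩ := ht.2
  refine ⟨⟨g1, g2, g4⟩, g5, g6, g7, ?_⟩
  refine le_trans ?_ g8
  have e1 : Nat.Coprime t.1 (t.1 + t.2) := by simpa using g4
  have e2 : Nat.Coprime t.2 (t.1 + t.2) := by simpa using g4.symm
  exact prod_fl g1 g2 (Nat.add_pos_left g1 _) g4 e1 e2

end Pool.Agent.Results.MP_2ec8a3_nt.FewHighPowersOfSmallPrimes
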